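import Mathlib
import Pool.Agent.W484.AS.Final

/-!
# The Tate conjecture for open subvarieties of products of abelian varieties and K3 surfaces

Let `q = p ^ a`, let `A` be an abelian variety and `Y` a smooth projective variety over the field
with `q` elements, for instance a K3 surface.

`V` is the first cohomology of `A` and `H b` the cohomology of `Y` in degree `2 b` (coefficients
extended to the complex numbers), `F` and `G b` are the Frobenius endomorphisms, `f b` is the
characteristic polynomial of `G b`: a polynomial with integral coefficients whose complex roots have
the absolute value `q ^ b`. The *slope* of a root `x` of `f b` in an algebraic closure of the field of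
`p`-adic numbers is the real number `slp p a x` such that `|x| = q ^ (- slope)`.

The eigenvalues of `F` are conjugates of finitely many numbers `π i` in CM fields `K i`, and numbers
in a set `S` of supersingular Weil numbers (`S` may be empty). We suppose:

* any two embeddings `x`, `y` of the fields `K i` in the complex numbers, which are different and
  not conjugate, are `Flipped`: an automorphism of the complex numbers maps `(x, y)` to
  `(x, bar y)`, to `(bar x, y)` or to `(y, bar x)` (generic Galois groups);
* `c` is a real number such that, for all `i`, the mean of `(2 * slope - 1) ^ 2` over all the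
  embeddings of `K i` in an algebraic closure of the field of `p`-adic numbers is at least `c` (if
  the `π i` are ordinary we may take `c = 1`);
* for all `b` the polynomial `f b` is `Moderate`, with respect to `c`, and with respect to `c / 2` if
  `S` is not empty.

Suppose, for example, that `A` is ordinary, `c = 1` and `S` is empty. Then the condition
`Moderate` holds for all K3 surfaces except for the ordinary ones of geometric Picard number at
least `18`. In fact

* for supersingular K3 surfaces all slopes in degree two are equal to `1`;
* for K3 surfaces of finite height `h` all slopes are `1 - 1 / h`, `1` or `1 + 1 / h`;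
* for ordinary K3 surfaces (`h = 1`) the slopes `0` and `2` have multiplicity one, and by the Tate
  conjecture for divisors on K3 surfaces the number of roots which are not of the form `q ζ`, `ζ` a
  root of unity, is `22` minus the geometric Picard number.

Similarly `Moderate` holds for cubic fourfolds (`b = 2`, with the same shape of slopes), and for any
`Y` such that all slopes in degree `2 b` are between `b - 1 / 2` and `b + 1 / 2`.

The theorem says:

* for all `k` and `b`, every class in `H ^ (2 k) (A) ⊗ H ^ (2 b) (Y)` which is a Tate class over
  some extension of the base field is a linear combination of products of `k` classes of divisors on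
  `A` and a Tate class in `H ^ (2 b) (Y)` (all over extensions of the base field);
* suppose that the `G b` are diagonalizable (this is known for K3 surfaces). Let `R` be an
  equivariant map from `⨁ b, H ^ (2 i - 2 b) (A) ⊗ H ^ (2 b) (Y)` to `M` such that the absolute
  values of the eigenvalues of the Frobenius of `M / range R` are larger than `q ^ i`. Then every
  Tate class in `M` is the image of a Tate class all of whose components are linear
  combinations of products as above.

If the odd cohomology of `Y` vanishes, the second part applies, by Deligne's theory of weights, to
`M = H ^ (2 i) (U)` for every open subvariety `U` of `A × Y`, proper or not: the image of the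
restriction is the part of weight `2 i`. By the theorem of Tate, the divisor classes in
the statement are linear combinations of classes of divisors. So if all Tate classes on `Y` are
algebraic, then the Tate conjecture holds for all open subvarieties of `A × Y`, in all
codimensions. For K3 surfaces `Y` this is known.

The idea of the proof: if a product of conjugates of the `π i` and of an eigenvalue `ρ` of `G b`
is a power of `q` up to roots of unity, and no two of the conjugates are conjugate, the
flips imply that their slopes are orthogonal in the mean over the Galois group; so the sum of the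
mean squares of their deviations is at most the mean square of the deviations of the slopes of `ρ`.
As the degree is even there would be at least two conjugates.
-/

set_option autoImplicit false

namespace Pool.Agent.Results.MP_2a05c8_ag.AbelianTimesKThree

open NumberField Module TensorProduct Pool.Agent.H194R3.CM Pool.Agent.W484.BB
  Pool.Agent.W484.AS

theorem result (p : ℕ) [Fact p.Prime] (a : ℕ) (ha : 0 < a)
    {I : Type} [Finite I] (K : I → Type) [∀ i, Field (K i)] [∀ i, NumberField (K i)]
    [∀ i, IsCMField (K i)] (π : ∀ i, K i)
    (hweil : ∀ i, ∀ φ : K i →+* ℂ, ‖φ (π i)‖ ^ 2 = (p : ℝ) ^ a)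
    (hflip : ∀ x y : Σ i, (K i →+* ℂ), y ≠ x → y ≠ bar x → Flipped x y)
    (c : ℝ) (hc : ∀ i, c * finrank ℚ (K i) ≤ spread p a (π i))
    (S : Set ℂ) (hS : ∀ μ ∈ S, ∃ N : ℕ, 0 < N ∧ μ ^ (2 * N) = ((p : ℂ) ^ a) ^ N)
    {V : Type} [AddCommGroup V] [Module ℂ V] [FiniteDimensional ℂ V] (F : V →ₗ[ℂ] V)
    (hF : Submodule.span ℂ {v : V | (∃ i, ∃ σ : K i →+* ℂ, F v = σ (π i) • v) ∨
      ∃ μ ∈ S, F v = μ • v} = ⊤)
    {H : ℕ → Type} [∀ b, AddCommGroup (H b)] [∀ b, Module ℂ (H b)]
    [∀ b, FiniteDimensional ℂ (H b)] (G : ∀ b, H b →ₗ[ℂ] H b) (f : ℕ → Polynomial ℤ)
    (hf : ∀ b, (G b).charpoly = (f b).map (Int.castRingHom ℂ))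
    (hw : ∀ b, ∀ z ∈ ((f b).map (Int.castRingHom ℂ)).roots, ‖z‖ = ((p : ℝ) ^ a) ^ b)
    (hY : ∀ b, Moderate p a b c (f b))
    (hYS : S.Nonempty → ∀ b, Moderate p a b (c / 2) (f b)) :
    ProductTate F G ((p : ℂ) ^ a) ∧
      ((∀ b, Submodule.span ℂ {w : H b | ∃ μ : ℂ, G b w = μ • w} = ⊤) →
        OpenTate F G ((p : ℂ) ^ a)) := by
  have hG := eigenvalue_small p a ha c S G f hf hw hY hYS
  have key : ProductTate F G ((p : ℂ) ^ a) := by
    intro k b s hs u hu
    exact mem_products p a ha π hweil hflip c hc S hS F hF (G b) b (hG b) k s hs u hu
  refine ⟨key, fun hss => open_part F G ((p : ℂ) ^ a) ?_ hss key⟩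
  intro n
  obtain ⟨r, b', α, _, hb'⟩ := exists_eigenbasis_list F (val π S) (span_val S π F hF) n
  exact span_eigen_of_basis _ b' α hb'

end Pool.Agent.Results.MP_2a05c8_ag.AbelianTimesKThree
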