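import Pool.Agent.W547.LQ.Quot

/-!
# Tate classes on open subvarieties of powers of abelian varieties with complex multiplication by a
field of degree at most fourteen

Let `A` be an abelian variety with complex multiplication by a CM field `E` of degree at most fourteen
(for instance a simple abelian variety of CM type of dimension at most seven), let `X` be a
power of `A`, and let `V = V_ℓ(X)` be the rational Tate module with the action `ρ` of the Galois group
`G` of a finitely generated field `k` and the cyclotomic character `χ`. Let `γ ∈ G` be an element (for
instance one Frobenius element) acting on `V` by the multiplication by `π ∈ H_1(X, ℚ)`, with the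
absolute values given by the formula of Shimura and Taniyama: this covers every finitely generated
field `k` of characteristic zero, and the ordinary abelian varieties over finitely
generated fields of characteristic `p`.

Let `U` be an open subvariety of `X` and `W ⊆ H^{2m}(X, ℚ_ℓ(m))` the kernel of the restriction to `U`.
The classes in the image of the restriction which are invariant under a subgroup `Δ` of finite index are
the classes `f` with `s f - f ∈ W` for `s ∈ Δ`; by the theory of weights all classes of
`H^{2m}(U, ℚ_ℓ(m))` invariant under `Δ` are of this form. The theorem says that all of them are
restrictions of linear combinations of polynomials in classes of divisors and pull-backs, along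
homomorphisms, of Weil classes of imaginary quadratic fields on abelian fourfolds and
sixfolds of CM type and of split Weil type (which are algebraic by theorems of Markman). No hypothesis
on the semisimplicity of `ρ` is made.
-/

namespace Pool.Agent.Results.MP_2a05c8_ag.OpenInCMDegreeFourteen

open Module Pool.Agent.W547.KB Pool.Agent.W547.LD Pool.Agent.W530.NF Pool.Agent.W547.LQ

/-- Let `X` be a product of copies of an abelian variety with complex multiplication by a CM field of
degree at most fourteen: for every subspace `W` of `H^{2m}(X, ℚ_ℓ(m))` stable under a subgroup `Δ` of
finite index, all classes invariant under `Δ` modulo `W` are congruent modulo `W` to combinations of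
polynomials in divisors and pull-backs of split Weil classes. -/
theorem result (A : CMPair) (hA : finrank ℚ A.E ≤ 14) (X : CMAV) (hX : ∀ i, X.factor i = A)
    {K V G : Type} [Field K] [CharZero K] [AddCommGroup V] [Module K V] [Group G]
    (C : Comparison X K V) (ρ : Representation K G V) (χ : G →* K) (w : AbsoluteValue ℂ ℝ)
    (q : ℕ) (π : X.H1) (γ : G) (h : IsFrobeniusAt X C ρ χ w q π γ) : TateForQuotients C ρ χ :=
  tate_open_seven A hA X hX C ρ χ w q π γ h

end Pool.Agent.Results.MP_2a05c8_ag.OpenInCMDegreeFourteen
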