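import Pool.Agent.W547.LQ.Quot

/-!
# Tate classes on open subvarieties of powers of abelian varieties of CM type of dimension at most five

Let `Y` be an arbitrary product of abelian varieties with complex multiplication by CM fields, of
dimension at most five (`dim H_1(Y, ℚ) ≤ 10`), let `X = Y ^ n`, and let `V = V_ℓ(X)` be the rational
Tate module with the action `ρ` of the Galois group `G` of a finitely generated field `k` and the
cyclotomic character `χ`. Let `γ ∈ G` be an element (for instance one Frobenius element) acting on `V`
by the multiplication by `π ∈ H_1(X, ℚ)`, with the absolute values given by the formula of Shimura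
and Taniyama: this covers every finitely generated field `k` of characteristic zero (where the
abelian varieties of CM type are defined over number fields after a finite extension), and the ordinary
abelian varieties over finitely generated fields of characteristic `p`.

Let `U` be an open subvariety of `X` and `W ⊆ H^{2m}(X, ℚ_ℓ(m))` the kernel of the restriction to `U`.
The classes in the image of the restriction which are invariant under a subgroup `Δ` of finite index are
the classes `f` with `s f - f ∈ W` for `s ∈ Δ`; by the theory of weights all classes of
`H^{2m}(U, ℚ_ℓ(m))` invariant under `Δ` are of this form. The theorem says that all of them are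
restrictions of linear combinations of polynomials in classes of divisors and pull-backs, along
homomorphisms, of Weil classes of imaginary quadratic fields on abelian fourfolds and
sixfolds of CM type and of split Weil type (which are algebraic by theorems of Markman). No hypothesis
on the semisimplicity of `ρ` is made.
-/

namespace Pool.Agent.Results.MP_2a05c8_ag.OpenInCMDimensionFive

open Module Pool.Agent.W547.KB Pool.Agent.W547.LD Pool.Agent.W530.NF Pool.Agent.W547.LF
open Pool.Agent.W547.LQ

/-- Let `Y` be an abelian variety of CM type of dimension at most five, `X = Y ^ n`: for every subspace
`W` of `H^{2m}(X, ℚ_ℓ(m))` stable under a subgroup `Δ` of finite index, all classes invariant under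
`Δ` modulo `W` are congruent modulo `W` to combinations of polynomials in divisors and pull-backs of
split Weil classes. -/
theorem result (Y : CMAV) (hY : finrank ℚ Y.H1 ≤ 10) (n : ℕ) {K V G : Type} [Field K]
    [CharZero K] [AddCommGroup V] [Module K V] [Group G] (C : Comparison (powerX Y n) K V)
    (ρ : Representation K G V) (χ : G →* K) (w : AbsoluteValue ℂ ℝ) (q : ℕ)
    (π : (powerX Y n).H1) (γ : G)
    (h : Pool.Agent.W547.LQ.IsFrobeniusAt (powerX Y n) C ρ χ w q π γ) :
    TateForQuotients C ρ χ :=
  tate_open_five Y hY n C ρ χ w q π γ h

end Pool.Agent.Results.MP_2a05c8_ag.OpenInCMDimensionFive
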