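import Mathlib
import Pool.Agent.W529.Ta.TwoFrob

/-!
# Tate's conjecture for all open subvarieties of all powers of an odd-dimensional complete
intersection, from the characteristic polynomials of finitely many Frobenius elements

Let `X` be a smooth projective variety of ODD dimension `n` over a finitely generated field `K` of
characteristic zero whose cohomology outside the middle degree is spanned by powers of the hyperplane
class, for example a smooth complete intersection.  Let `V = H^n(X_{\bar K}, ℚ_ℓ)`, let
`ω : V × V → ℚ_ℓ(-n)` be the cup product, which is alternating, nondegenerate and equivariant, and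
`χ` the `(-n)`-th power of the cyclotomic character.  Let `γ_j` be Frobenius elements at closed
points of a smooth model of `X` (places of good reduction, if `K` is a number field), not above `ℓ`,
and `P_j` the characteristic polynomial of `γ_j` on `V`.  Suppose the following.

(1) For all `M > 0` the `M`-th powers of the eigenvalues of `γ_j` are distinct.

(2) For every `0 < d < dim V` there is a `j` such that `P_j` has no divisor of degree `d` over `ℚ_ℓ`.

(3) For every prime number `p` there are a `j` and a divisor of `P_j` over `ℚ_ℓ` of degree prime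
  to `p`.

(4) For one `j` the eigenvalues are `λ_1, ..., λ_g, q / λ_1, ..., q / λ_g`, where `q = χ γ_j`, and the
  `λ_i` are multiplicatively independent modulo `q`.

For example `P_1` is irreducible over `ℚ_ℓ`, `P_2` has a root in `ℚ_ℓ`, and one of them satisfies (4).
All conditions can be checked by counting points of `X` over finite fields; no place of bad
reduction is used.

Then for every open subvariety `U` of every power `X ^ r` and every `i` the conjecture `T^i(U)` is
true, over every finite extension of `K`, for this `ℓ`.  Indeed `H^{2i}(X ^ r)(i)` is a direct sum of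
spaces `V ^ {⊗ 2m} (m n)`, and the invariants of `H^{2i}(U)(i)` lie in the part of weight zero, which is
the quotient of `H^{2i}(X ^ r)(i)` by a Galois stable subspace `W`.  The Lean statement says that
every class in the quotient by `W` which is invariant under an open subgroup is the image of a
linear combination of products of the classes `ω` (which are the components of the classes of
diagonals of `X × X`).  Here the space dual to `V ^ {⊗ 2m} (m n)` is the space of forms in `2 m`
variables with the action twisted by `χ ^ m`; it is isomorphic to `V ^ {⊗ 2m} (m n)` by the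
polarization.

No semisimplicity, irreducibility or Mumford-Tate conjecture is assumed.  In the Lean statement `Γ`
is the Galois group; the data `V`, `ρ`, `χ`, `ω`, `γ_j` are arbitrary with these properties.

The proof.  By (1) and interpolation `γ_j` is a polynomial in `γ_j ^ M`; so by (2) all open
subgroups are irreducible on `V`, and if an endomorphism `A` commutes with an open subgroup, then it
is a polynomial in `γ_j` and generates a field whose degree divides the degrees of all divisors
of `P_j`; so `A` is a scalar by (3).  By (4) the Lie algebra of the endomorphisms which kill all Tate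
forms and preserve all stable subspaces of spaces of forms contains the diagonal torus, so that it
is a product of symplectic and general linear Lie algebras; the spaces of forms are completely
reducible under it and the Tate forms are generated in degree two, where they are multiples of
`ω`.  Complete reducibility lifts the invariants.
-/

namespace Pool.Agent.Results.MP_2a05c8_ag.OpenInPowersGoodPlaces

open Module

/-- The space of the forms in `2 m` variables on `V` (indexed by `Fin m × Fin 2`). -/
abbrev EvenForms (k V : Type) [Field k] [AddCommGroup V] [Module k V] (m : ℕ) : Type :=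
  MultilinearMap k (fun _ : Fin m × Fin 2 => V) k

/-- The action of `s` on a form in `2 m` variables, twisted by `χ ^ m`:
`(s φ)(v) = χ(s)^m φ(s⁻¹ v)`. -/
def act {k V Γ : Type} [Field k] [AddCommGroup V] [Module k V] [Group Γ]
    (ρ : Representation k Γ V) (χ : Γ →* k) (m : ℕ) (s : Γ) (φ : EvenForms k V m) :
    EvenForms k V m :=
  (χ s ^ m) • φ.compLinearMap (fun _ => ρ s⁻¹)

/-- The form is a linear combination of products of `m` factors `ω`, in all orders of the
variables. -/
def IsPolynomialIn {k V : Type} [Field k] [AddCommGroup V] [Module k V]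
    (ω : V →ₗ[k] V →ₗ[k] k) {m : ℕ} (φ : EvenForms k V m) : Prop :=
  φ ∈ Submodule.span k {ψ : EvenForms k V m |
    ∃ σ : Equiv.Perm (Fin m × Fin 2), ∀ v, ψ v = ∏ l, ω (v (σ (l, 0))) (v (σ (l, 1)))}

/-- A subspace `W` of a finite direct sum of spaces of forms is stable under `Δ` (acting on each
summand by the twisted action). -/
def IsStable {k V Γ : Type} [Field k] [AddCommGroup V] [Module k V] [Group Γ]
    (ρ : Representation k Γ V) (χ : Γ →* k) (Δ : Subgroup Γ) {r : ℕ} {m : Fin r → ℕ}
    (W : Submodule k (∀ i, EvenForms k V (m i))) : Prop :=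
  ∀ s ∈ Δ, ∀ φ ∈ W, (fun i => act ρ χ (m i) s (φ i)) ∈ W

/-- The element `φ` of a finite direct sum of spaces of forms is invariant under `Δ` modulo the
subspace `W`. -/
def IsInvariantMod {k V Γ : Type} [Field k] [AddCommGroup V] [Module k V] [Group Γ]
    (ρ : Representation k Γ V) (χ : Γ →* k) (Δ : Subgroup Γ) {r : ℕ} {m : Fin r → ℕ}
    (W : Submodule k (∀ i, EvenForms k V (m i))) (φ : ∀ i, EvenForms k V (m i)) : Prop :=
  ∀ s ∈ Δ, (fun i => act ρ χ (m i) s (φ i)) - φ ∈ W

/-- For every finite direct sum of spaces of forms in even numbers of variables (with the twisted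
action), every subgroup `Δ` of finite index and every `Δ`-stable subspace `W` of the sum: every
element which is `Δ`-invariant modulo `W` is congruent modulo `W` to a family of forms which are
polynomials in `ω`. -/
def TateForQuotients {k V Γ : Type} [Field k] [AddCommGroup V] [Module k V] [Group Γ]
    (ρ : Representation k Γ V) (χ : Γ →* k) (ω : V →ₗ[k] V →ₗ[k] k) : Prop :=
  ∀ (r : ℕ) (m : Fin r → ℕ) (Δ : Subgroup Γ), Δ.FiniteIndex →
    ∀ W : Submodule k (∀ i, EvenForms k V (m i)), IsStable ρ χ Δ W →
      ∀ φ : ∀ i, EvenForms k V (m i), IsInvariantMod ρ χ Δ W φ →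
        ∃ ψ : ∀ i, EvenForms k V (m i), (∀ i, IsPolynomialIn ω (ψ i)) ∧ φ - ψ ∈ W

/-- Conditions on the characteristic polynomials of elements `γ j` (powers separable, no common
degree `0 < d < dim V` of divisors, no prime dividing the degrees of all divisors, and for one `j₀`
multiplicatively independent eigenvalues): all Tate classes in all quotients of direct sums of
spaces of forms come from polynomials in `ω`. -/
theorem result (ℓ : ℕ) [Fact ℓ.Prime]
    {V : Type} [AddCommGroup V] [Module ℚ_[ℓ] V] [FiniteDimensional ℚ_[ℓ] V]
    {Γ : Type} [Group Γ] (ρ : Representation ℚ_[ℓ] Γ V) (χ : Γ →* ℚ_[ℓ])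
    (ω : V →ₗ[ℚ_[ℓ]] V →ₗ[ℚ_[ℓ]] ℚ_[ℓ]) (halt : ∀ v, ω v v = 0)
    (hnondeg : ∀ u, (∀ v, ω v u = 0) → u = 0)
    (hω : ∀ s u v, ω (ρ s u) (ρ s v) = χ s * ω u v)
    {J : Type} (γ : J → Γ)
    (hsep : ∀ j, ∀ M : ℕ, 0 < M → (ρ (γ j ^ M)).charpoly.Separable)
    (hdeg : ∀ d : ℕ, 0 < d → d < finrank ℚ_[ℓ] V →
      ∃ j, ∀ f : Polynomial ℚ_[ℓ], f ∣ (ρ (γ j)).charpoly → f.natDegree ≠ d)
    (hgcd : ∀ p : ℕ, p.Prime → ∃ j, ∃ f : Polynomial ℚ_[ℓ], f ∣ (ρ (γ j)).charpoly ∧
      ¬ p ∣ f.natDegree)
    (j₀ : J) (q : AlgebraicClosure ℚ_[ℓ])
    (hq : q = algebraMap ℚ_[ℓ] (AlgebraicClosure ℚ_[ℓ]) (χ (γ j₀)))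
    (g : ℕ) (lam : Fin g → AlgebraicClosure ℚ_[ℓ])
    (hcharpoly : (ρ (γ j₀)).charpoly.map (algebraMap ℚ_[ℓ] (AlgebraicClosure ℚ_[ℓ])) =
      ∏ i, ((Polynomial.X - Polynomial.C (lam i)) * (Polynomial.X - Polynomial.C (q / lam i))))
    (hindep : ∀ (c : Fin g → ℤ) (d : ℤ), ∏ i, lam i ^ c i = q ^ d → ∀ i, c i = 0) :
    TateForQuotients ρ χ ω := by
  subst hq
  obtain ⟨h1, h2⟩ := Pool.Agent.W529.Ta.two_frobenius ρ χ γ (AlgebraicClosure ℚ_[ℓ]) ω halt
    hnondeg hω ⟨hsep, hdeg⟩ hgcd j₀ lam ⟨hcharpoly, hindep⟩
  intro r m Δ hΔ W hW φ hφ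
  exact Pool.Agent.W529.Ta.tate_lift ρ χ ω h1 h2 m Δ hΔ W hW φ hφ

end Pool.Agent.Results.MP_2a05c8_ag.OpenInPowersGoodPlaces
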